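import Pool.Agent.X116.BcA

/-!
# MP_ddcbd8_an, Q1: for a singular Bernoulli convolution the densities tend to zero

Definitions (in `Pool.Agent.X116.Bc`):

* `coin` is the fair coin on `Bool`, `val β a = ∑_k a_k β^{-(k+1)}`, and
  `nu β` is the law of `val β` under the product of fair coins, the Bernoulli convolution;
* `dens β n` is `f_n`: `f_0 = (β-1) 1_I`, `f_{n+1}(x) = (β/2) (f_n(βx) + f_n(βx-1))` on
  `I = [0, 1/(β-1)]`, and `0` outside `I`.
-/

set_option autoImplicit false

namespace Pool.Agent.Results.MP_ddcbd8_an.SingularCase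

open Filter Topology MeasureTheory

/-- If the Bernoulli convolution `ν_β`, `1 < β < 2`, is singular, then `f_n(x) → 0` for almost
every `x`. -/
theorem result (β : ℝ) (h1 : 1 < β) (h2 : β < 2)
    (hs : Measure.MutuallySingular (Pool.Agent.X116.Bc.nu β) volume) :
    ∀ᵐ x : ℝ, Tendsto (fun n : ℕ => Pool.Agent.X116.Bc.dens β n x) atTop (𝓝 0) :=
  Pool.Agent.X116.Bc.singular_case h1 hs

end Pool.Agent.Results.MP_ddcbd8_an.SingularCase
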